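import Mathlib
import Pool.Agent.Q132.CB.E

/-!
# Smooth diffeomorphisms supported in the unit cube (helper127)
-/

set_option autoImplicit false

namespace Pool.Agent.Q127.SD

open Finset Filter Topology Function
open Pool.Agent.Q132.CB

/-! ### the cutoff function -/

/-- smooth, `1` on `[-1/2, 1/2]`, `0` outside `(-1, 1)` -/
noncomputable def chi (x : ℝ) : ℝ := Real.smoothTransition (4 / 3 * (1 - x ^ 2))

lemma chi_smooth : ContDiff ℝ (⊤ : ℕ∞) chi := by
  unfold chi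
  exact Real.smoothTransition.contDiff.comp (by fun_prop)

lemma chi_nonneg (x : ℝ) : 0 ≤ chi x := Real.smoothTransition.nonneg _
lemma chi_le_one (x : ℝ) : chi x ≤ 1 := Real.smoothTransition.le_one _

lemma chi_one {x : ℝ} (h : |x| ≤ 1 / 2) : chi x = 1 := by
  apply Real.smoothTransition.one_of_one_le
  have : x ^ 2 ≤ (1 / 2) ^ 2 := sq_le_sq' (by linarith [(abs_le.1 h).1]) (abs_le.1 h).2
  linarith

lemma chi_zero {x : ℝ} (h : 1 ≤ |x|) : chi x = 0 := by
  apply Real.smoothTransition.zero_of_nonpos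
  have : (1 : ℝ) ^ 2 ≤ |x| ^ 2 := pow_le_pow_left₀ zero_le_one h 2
  rw [sq_abs] at this
  linarith

lemma chi_lip : ∃ M : ℝ, 1 ≤ M ∧ ∀ x y, |chi x - chi y| ≤ M * |x - y| := by
  have hc : HasCompactSupport chi := by
    apply HasCompactSupport.intro (isCompact_Icc (a := (-1 : ℝ)) (b := 1))
    intro x hx
    apply chi_zero
    by_contra hcon
    rw [not_le] at hcon
    exact hx ⟨(abs_lt.1 hcon).1.le, (abs_lt.1 hcon).2.le⟩
  obtain ⟨C, hC⟩ := chi_smooth.lipschitzWith_of_hasCompactSupport hc (by simp)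
  refine ⟨C + 1, by linarith [C.2], fun x y => ?_⟩
  have := hC.dist_le_mul x y
  rw [Real.dist_eq, Real.dist_eq] at this
  nlinarith [abs_nonneg (x - y)]

variable {ι : Type*} [Fintype ι] [DecidableEq ι]

/-- a function of the coordinate `k` times the cutoffs of the other coordinates -/
noncomputable def P (f : ℝ → ℝ) (k : ι) (v : ι → ℝ) : ℝ := f (v k) * ∏ j ∈ univ.erase k, chi (v j)

lemma P_smooth {f : ℝ → ℝ} (hf : ContDiff ℝ (⊤ : ℕ∞) f) (k : ι) : ContDiff ℝ (⊤ : ℕ∞) (P f k) := by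
  unfold P
  refine (hf.comp (contDiff_apply ℝ ℝ k)).mul ?_
  exact contDiff_prod (fun j _ => chi_smooth.comp (contDiff_apply ℝ ℝ j))

lemma P_off {f : ℝ → ℝ} (hf : ∀ x, 1 ≤ |x| → f x = 0) (k : ι) {v : ι → ℝ} (hv : 1 ≤ ‖v‖) : P f k v = 0 := by
  obtain ⟨j, hj⟩ : ∃ j, 1 ≤ |v j| := by
    by_contra hcon
    push Not at hcon
    have : ‖v‖ < 1 := (pi_norm_lt_iff one_pos).2 (fun j => hcon j)
    linarith
  unfold P
  by_cases h : j = k
  · rw [← h, hf _ hj, zero_mul]
  · rw [prod_eq_zero (mem_erase.2 ⟨h, mem_univ j⟩) (chi_zero hj), mul_zero]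

/-- smooth functions with compact support are Lipschitz -/
lemma lip_of_off {ψ : (ι → ℝ) → ℝ} (h : ContDiff ℝ (⊤ : ℕ∞) ψ) (hoff : ∀ v, 1 ≤ ‖v‖ → ψ v = 0) :
    ∃ L : ℝ, 0 ≤ L ∧ ∀ v v', |ψ v - ψ v'| ≤ L * ‖v - v'‖ := by
  have hc : HasCompactSupport ψ := by
    apply HasCompactSupport.intro (isCompact_closedBall (0 : ι → ℝ) 1)
    intro v hv
    rw [mem_closedBall_zero_iff, not_le] at hv
    exact hoff v hv.le
  obtain ⟨C, hC⟩ := h.lipschitzWith_of_hasCompactSupport hc (by simp)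
  refine ⟨C, C.2, fun v v' => ?_⟩
  have := hC.dist_le_mul v v'
  rwa [Real.dist_eq, dist_eq_norm] at this

lemma P_good {f : ℝ → ℝ} {M η : ℝ} (hM : ∀ x y, |chi x - chi y| ≤ M * |x - y|) (hη : η * M ≤ 1 / 2) (hM0 : 0 ≤ M)
    (hf : ContDiff ℝ (⊤ : ℕ∞) f) (hf1 : ∀ x, 1 ≤ |x| → f x = 0) (hf2 : ∀ x, |f x| ≤ η)
    {i k : ι} (hik : k ≠ i) : GoodP i (P f k) := by
  refine ⟨lip_of_off (P_smooth hf k) (fun v hv => P_off hf1 k hv), ?_, fun v hv => P_off hf1 k hv⟩
  intro v r r'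
  have hmem : i ∈ univ.erase k := mem_erase.2 ⟨hik.symm, mem_univ i⟩
  have e : ∀ s : ℝ, P f k (update v i s) = f (v k) * (chi s * ∏ j ∈ (univ.erase k).erase i, chi (v j)) := by
    intro s
    unfold P
    rw [← mul_prod_erase _ _ hmem, update_self, update_of_ne hik]
    congr 2
    apply prod_congr rfl
    intro j hj
    rw [update_of_ne (ne_of_mem_erase hj)]
  rw [e, e, ← mul_sub, ← sub_mul, abs_mul, abs_mul]
  have h1 : |∏ j ∈ (univ.erase k).erase i, chi (v j)| ≤ 1 := by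
    rw [abs_prod]
    exact prod_le_one (fun j _ => abs_nonneg _) (fun j _ => by rw [abs_of_nonneg (chi_nonneg _)]; exact chi_le_one _)
  have h2 := hM r r'
  have h3 := hf2 (v k)
  have h4 : |chi r - chi r'| * |∏ j ∈ (univ.erase k).erase i, chi (v j)| ≤ M * |r - r'| := by
    calc _ ≤ |chi r - chi r'| * 1 := mul_le_mul_of_nonneg_left h1 (abs_nonneg _)
      _ ≤ _ := by rw [mul_one]; exact h2
  calc |f (v k)| * (|chi r - chi r'| * |∏ j ∈ (univ.erase k).erase i, chi (v j)|)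
      ≤ η * (M * |r - r'|) := mul_le_mul h3 h4 (by positivity) ((abs_nonneg _).trans h3)
    _ = η * M * |r - r'| := by ring
    _ ≤ 1 / 2 * |r - r'| := mul_le_mul_of_nonneg_right hη (abs_nonneg _)

lemma mv_smooth {i : ι} {ψ : (ι → ℝ) → ℝ} (h : ContDiff ℝ (⊤ : ℕ∞) ψ) : ContDiff ℝ (⊤ : ℕ∞) (mv i ψ) := by
  rw [contDiff_pi]
  intro j
  by_cases hj : j = i
  · subst hj
    have : (fun v : ι → ℝ => mv j ψ v j) = fun v => v j + ψ v := by
      funext v; unfold mv; rw [update_self]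
    rw [this]
    exact (contDiff_apply ℝ ℝ j).add h
  · have : (fun v : ι → ℝ => mv i ψ v j) = fun v => v j := by
      funext v; unfold mv; rw [update_of_ne hj]
    rw [this]
    exact contDiff_apply ℝ ℝ j

/-- the smooth push -/
lemma exists_push {K : Set (ι → ℝ)} (hK : IsClosed K) (t : ι) : ∃ φ : (ι → ℝ) → ℝ, ContDiff ℝ (⊤ : ℕ∞) φ ∧
    GoodP t φ ∧ (∀ v, 0 ≤ φ v) ∧ (∀ v ∈ K, φ v = 0) ∧ ∀ v, v ∉ K → ‖v‖ < 1 → 0 < φ v := by
  have hU : IsOpen (Metric.ball (0 : ι → ℝ) 1 ∩ Kᶜ) := Metric.isOpen_ball.inter hK.isOpen_compl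
  obtain ⟨f, hf1, hf2, hf3⟩ := hU.exists_contDiff_support_eq (n := ⊤)
  have hoff : ∀ v, 1 ≤ ‖v‖ → f v = 0 := by
    intro v hv
    by_contra hcon
    have : v ∈ f.support := hcon
    rw [hf1] at this
    have := mem_ball_zero_iff.1 this.1
    linarith
  obtain ⟨L, hL, hlip⟩ := lip_of_off hf2 hoff
  have hpos : 0 < 1 / (2 * (L + 1)) := by positivity
  have hnn : ∀ v, 0 ≤ f v := fun v => (hf3 ⟨v, rfl⟩).1
  refine ⟨fun v => 1 / (2 * (L + 1)) * f v, contDiff_const.mul hf2, ⟨?_, ?_, ?_⟩, ?_, ?_, ?_⟩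
  · refine ⟨1 / (2 * (L + 1)) * L, by positivity, fun v v' => ?_⟩
    rw [← mul_sub, abs_mul, abs_of_pos hpos, mul_assoc]
    exact mul_le_mul_of_nonneg_left (hlip v v') hpos.le
  · intro v r r'
    rw [← mul_sub, abs_mul, abs_of_pos hpos]
    have h1 := hlip (update v t r) (update v t r')
    have h2 : ‖update v t r - update v t r'‖ ≤ |r - r'| := by
      rw [pi_norm_le_iff_of_nonneg (abs_nonneg _)]
      intro j
      rw [Pi.sub_apply, Real.norm_eq_abs]
      by_cases hj : j = t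
      · rw [hj, update_self, update_self]
      · rw [update_of_ne hj, update_of_ne hj, sub_self, abs_zero]; exact abs_nonneg _
    calc 1 / (2 * (L + 1)) * |f (update v t r) - f (update v t r')|
        ≤ 1 / (2 * (L + 1)) * (L * |r - r'|) :=
          mul_le_mul_of_nonneg_left (h1.trans (mul_le_mul_of_nonneg_left h2 hL)) hpos.le
      _ = (L / (L + 1)) * (1 / 2 * |r - r'|) := by field_simp
      _ ≤ 1 * (1 / 2 * |r - r'|) := by
          apply mul_le_mul_of_nonneg_right _ (by positivity)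
          rw [div_le_one (by positivity)]; linarith
      _ = _ := one_mul _
  · intro v hv
    rw [hoff v hv, mul_zero]
  · intro v
    exact mul_nonneg hpos.le (hnn v)
  · intro v hv
    have : f v = 0 := by
      by_contra hcon
      have h1 : v ∈ f.support := hcon
      rw [hf1] at h1
      exact h1.2 hv
    show 1 / (2 * (L + 1)) * f v = 0
    rw [this, mul_zero]
  · intro v hv hv1
    have h1 : v ∈ f.support := by rw [hf1]; exact ⟨mem_ball_zero_iff.2 hv1, hv⟩
    have h2 : 0 < f v := lt_of_le_of_ne (hnn v) (Ne.symm h1)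
    positivity

/-- the inverse of a smooth map of the class `Hm` is smooth -/
lemma Hm_symm_smooth {F : (ι → ℝ) → (ι → ℝ)} (h : Hm F) (hF : ContDiff ℝ (⊤ : ℕ∞) F) :
    ContDiff ℝ (⊤ : ℕ∞) h.homeo.symm := by
  obtain ⟨L, hL, hanti⟩ := h.anti
  have hinj : ∀ a, Function.Injective (fderiv ℝ F a) := by
    intro a
    rw [injective_iff_map_eq_zero]
    intro w hw
    by_contra hne
    have hd := (hF.differentiable (by simp)) a
    have h1 := hd.hasFDerivAt
    have h2 : Tendsto (fun s : ℝ => s⁻¹ • (F (a + s • w) - F a)) (𝓝[≠] 0) (𝓝 (fderiv ℝ F a w)) := by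
      have h3 : HasDerivAt (fun s : ℝ => F (a + s • w)) (fderiv ℝ F a w) 0 := by
        have h4 : HasDerivAt (fun s : ℝ => a + s • w) w 0 := by
          simpa using ((hasDerivAt_id (0 : ℝ)).smul_const w).const_add a
        have h5 : HasFDerivAt F (fderiv ℝ F a) (a + (0 : ℝ) • w) := by simpa using h1
        exact h5.comp_hasDerivAt 0 h4
      have := h3.tendsto_slope_zero
      simpa using this
    rw [hw] at h2
    have h3 := h2.norm
    rw [norm_zero] at h3
    have hw0 : 0 < ‖w‖ := norm_pos_iff.2 hne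
    have hlow : ∀ᶠ s : ℝ in 𝓝[≠] 0, ‖w‖ / (L + 1) ≤ ‖s⁻¹ • (F (a + s • w) - F a)‖ := by
      filter_upwards [self_mem_nhdsWithin] with s hs
      have hs0 : 0 < |s| := abs_pos.2 hs
      have h4 := hanti (a + s • w) a
      rw [add_sub_cancel_left, norm_smul, Real.norm_eq_abs] at h4
      rw [norm_smul, norm_inv, Real.norm_eq_abs, div_le_iff₀ (by positivity), inv_mul_eq_div, div_mul_eq_mul_div,
        le_div_iff₀ hs0]
      have := norm_nonneg (F (a + s • w) - F a)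
      nlinarith
    have h5 := ge_of_tendsto h3 hlow
    have h6 : 0 < ‖w‖ / (L + 1) := by positivity
    linarith
  let f' : ∀ a, (ι → ℝ) ≃L[ℝ] (ι → ℝ) := fun a =>
    (LinearEquiv.ofInjectiveEndo (fderiv ℝ F a).toLinearMap (hinj a)).toContinuousLinearEquiv
  apply Homeomorph.contDiff_symm h.homeo (f₀' := f') _ hF
  intro a
  have h1 := ((hF.differentiable (by simp)) a).hasFDerivAt
  have h2 : ((f' a : (ι → ℝ) ≃L[ℝ] (ι → ℝ)) : (ι → ℝ) →L[ℝ] (ι → ℝ)) = fderiv ℝ F a := by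
    ext w j; rfl
  rw [h2]
  exact h1

end Pool.Agent.Q127.SD
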