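import Mathlib
import Pool.Agent.Q132.CB.E

/-!
# The smooth embedding of the two-sided shift (helper127)

`X θ w = ∑ θ^|k| w(k)` satisfies the second order recurrence `X (sg w) + X (sgi w) = g (X w)` with a smooth
function `g`.
-/

set_option autoImplicit false

namespace Pool.Agent.Q127.SD

open Finset Filter Topology Function
open Pool.Agent.Q132.CB

/-- the digit -/
noncomputable def dg (w : ℤ → Bool) (i : ℤ) : ℝ := if w i then 1 else 0

lemma dg_mem (w : ℤ → Bool) (i : ℤ) : 0 ≤ dg w i ∧ dg w i ≤ 1 := by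
  unfold dg; split_ifs <;> norm_num

lemma dg_sg (w : ℤ → Bool) (i : ℤ) : dg (sg w) i = dg w (i + 1) := rfl
lemma dg_sgi (w : ℤ → Bool) (i : ℤ) : dg (sgi w) i = dg w (i - 1) := rfl

/-- the right half of the sum -/
noncomputable def XA (θ : ℝ) (w : ℤ → Bool) : ℝ := ∑' n : ℕ, θ ^ n * dg w n

/-- the left half of the sum -/
noncomputable def XB (θ : ℝ) (w : ℤ → Bool) : ℝ := ∑' n : ℕ, θ ^ n * (θ * dg w (-(n : ℤ) - 1))

/-- the embedding -/
noncomputable def X (θ : ℝ) (w : ℤ → Bool) : ℝ := XA θ w + XB θ w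

section emb

variable {θ : ℝ} (h0 : 0 < θ) (h1 : θ ≤ 1 / 5)
include h0 h1

lemma geoS : Summable (fun n : ℕ => θ ^ n) := summable_geometric_of_lt_one h0.le (by linarith)

lemma sumA (w : ℤ → Bool) : Summable (fun n : ℕ => θ ^ n * dg w n) := by
  apply Summable.of_nonneg_of_le _ _ (geoS h0 h1)
  · intro n
    exact mul_nonneg (by positivity) (dg_mem w n).1
  · intro n
    exact mul_le_of_le_one_right (by positivity) (dg_mem w n).2

lemma sumB (w : ℤ → Bool) : Summable (fun n : ℕ => θ ^ n * (θ * dg w (-(n : ℤ) - 1))) := by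
  apply Summable.of_nonneg_of_le _ _ (geoS h0 h1)
  · intro n
    exact mul_nonneg (by positivity) (mul_nonneg h0.le (dg_mem w _).1)
  · intro n
    apply mul_le_of_le_one_right (by positivity)
    have := dg_mem w (-(n : ℤ) - 1)
    nlinarith

lemma geo_le : ∑' n : ℕ, θ ^ n ≤ 5 / 4 := by
  rw [tsum_geometric_of_lt_one h0.le (by linarith), inv_le_comm₀ (by linarith) (by norm_num)]
  norm_num
  linarith

lemma XA_nonneg (w : ℤ → Bool) : 0 ≤ XA θ w :=
  tsum_nonneg (fun n => mul_nonneg (by positivity) (dg_mem w n).1)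

lemma XA_le (w : ℤ → Bool) : XA θ w ≤ 5 / 4 := by
  refine le_trans ((sumA h0 h1 w).tsum_le_tsum (fun n => ?_) (geoS h0 h1)) (geo_le h0 h1)
  exact mul_le_of_le_one_right (by positivity) (dg_mem w n).2

lemma XB_nonneg (w : ℤ → Bool) : 0 ≤ XB θ w :=
  tsum_nonneg (fun n => mul_nonneg (by positivity) (mul_nonneg h0.le (dg_mem w _).1))

lemma XB_le (w : ℤ → Bool) : XB θ w ≤ 5 / 4 * θ := by
  have h2 : Summable (fun n : ℕ => θ ^ n * θ) := (geoS h0 h1).mul_right _
  have h3 : XB θ w ≤ ∑' n : ℕ, θ ^ n * θ := by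
    apply (sumB h0 h1 w).tsum_le_tsum (fun n => ?_) h2
    apply mul_le_mul_of_nonneg_left _ (by positivity)
    exact mul_le_of_le_one_right h0.le (dg_mem w _).2
  rw [tsum_mul_right] at h3
  have := geo_le h0 h1
  nlinarith

lemma XA_sg (w : ℤ → Bool) : XA θ w = dg w 0 + θ * XA θ (sg w) := by
  unfold XA
  rw [(sumA h0 h1 w).tsum_eq_zero_add, ← tsum_mul_left]
  congr 1
  · simp
  · apply tsum_congr
    intro n
    rw [dg_sg]
    push_cast
    ring

lemma XB_sg (w : ℤ → Bool) : XB θ (sg w) = θ * dg w 0 + θ * XB θ w := by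
  unfold XB
  rw [(sumB h0 h1 (sg w)).tsum_eq_zero_add, ← tsum_mul_left]
  congr 1
  · rw [dg_sg]; simp
  · apply tsum_congr
    intro n
    rw [dg_sg]
    have e : (-((n + 1 : ℕ) : ℤ) - 1 + 1) = -(n : ℤ) - 1 := by push_cast; ring
    rw [e]
    ring

/-- **the recurrence** -/
lemma X_rec (w : ℤ → Bool) : X θ (sg w) + X θ (sgi w) = (θ + 1 / θ) * X θ w - (1 / θ - θ) * dg w 0 := by
  have a1 := XA_sg h0 h1 w
  have a2 := XB_sg h0 h1 w
  have a3 := XA_sg h0 h1 (sgi w)
  have a4 := XB_sg h0 h1 (sgi w)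
  rw [sg_sgi] at a3 a4
  have e1 : XA θ (sg w) = (XA θ w - dg w 0) / θ := by
    rw [eq_div_iff h0.ne']; linarith
  have e2 : XB θ (sgi w) = (XB θ w - θ * dg (sgi w) 0) / θ := by
    rw [eq_div_iff h0.ne']; linarith
  unfold X
  rw [e1, a2, a3, e2]
  field_simp
  ring

lemma X_bounds (w : ℤ → Bool) : dg w 0 ≤ X θ w ∧ X θ w ≤ dg w 0 + 5 / 2 * θ := by
  have a1 := XA_sg h0 h1 w
  have a2 := XA_nonneg h0 h1 (sg w)
  have a3 := XA_le h0 h1 (sg w)
  have a4 := XB_nonneg h0 h1 w
  have a5 := XB_le h0 h1 w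
  unfold X
  constructor
  · nlinarith
  · nlinarith

lemma X_nonneg (w : ℤ → Bool) : 0 ≤ X θ w := (dg_mem w 0).1.trans (X_bounds h0 h1 w).1

lemma X_le (w : ℤ → Bool) : X θ w ≤ 3 / 2 := by
  have := (X_bounds h0 h1 w).2
  have := (dg_mem w 0).2
  linarith

lemma X_cont : Continuous (X θ) := by
  unfold X
  have hd : ∀ i : ℤ, Continuous (fun w : ℤ → Bool => dg w i) := by
    intro i
    have h2 : Continuous (fun t : Bool => (if t then 1 else 0 : ℝ)) := continuous_of_discreteTopology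
    exact h2.comp (continuous_apply i)
  apply Continuous.add
  · unfold XA
    apply continuous_tsum (u := fun n : ℕ => θ ^ n) (fun n => continuous_const.mul (hd _)) (geoS h0 h1)
    intro n w
    show ‖θ ^ n * dg w n‖ ≤ θ ^ n
    rw [Real.norm_eq_abs, abs_of_nonneg (mul_nonneg (by positivity) (dg_mem w n).1)]
    exact mul_le_of_le_one_right (by positivity) (dg_mem w n).2
  · unfold XB
    apply continuous_tsum (u := fun n : ℕ => θ ^ n)
      (fun n => continuous_const.mul (continuous_const.mul (hd _))) (geoS h0 h1)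
    intro n w
    show ‖θ ^ n * (θ * dg w (-(n : ℤ) - 1))‖ ≤ θ ^ n
    rw [Real.norm_eq_abs, abs_of_nonneg (mul_nonneg (by positivity) (mul_nonneg h0.le (dg_mem w _).1))]
    apply mul_le_of_le_one_right (by positivity)
    have := dg_mem w (-(n : ℤ) - 1)
    nlinarith

end emb

end Pool.Agent.Q127.SD
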