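import Mathlib
import Pool.Agent.Q127.SD.A
import Pool.Agent.Q127.SD.B

/-!
# Smooth diffeomorphisms of zero entropy with a given subshift (helper127)
-/

set_option autoImplicit false

namespace Pool.Agent.Q127.SD

open Finset Filter Topology Function Dynamics
open Pool.Agent.Q132.CB
open Pool.Agent.Q132.TS (ZE HasWords)

/-- the identity near zero, cut off -/
noncomputable def fid (η x : ℝ) : ℝ := x * chi (x / η)

/-- the nonlinearity -/
noncomputable def gg (θ c x : ℝ) : ℝ :=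
  ((θ + 1 / θ) * x - c * (1 / θ - θ) * Real.smoothTransition (2 * (x / c) - 1)) * chi (x / (4 * c))

section fns

variable {η : ℝ} (hη : 0 < η) (hη1 : η ≤ 1)
include hη

omit hη in
lemma fid_smooth (η : ℝ) : ContDiff ℝ (⊤ : ℕ∞) (fid η) := by
  unfold fid
  exact contDiff_id.mul (chi_smooth.comp (contDiff_id.div_const _))

lemma fid_le (x : ℝ) : |fid η x| ≤ η := by
  unfold fid
  by_cases h : |x| ≤ η
  · rw [abs_mul, abs_of_nonneg (chi_nonneg _)]
    exact (mul_le_of_le_one_right (abs_nonneg _) (chi_le_one _)).trans h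
  · rw [chi_zero, mul_zero, abs_zero]
    · exact hη.le
    · rw [abs_div, abs_of_pos hη, le_div_iff₀ hη]; linarith

lemma fid_eq {x : ℝ} (h : |x| ≤ η / 2) : fid η x = x := by
  unfold fid
  rw [chi_one, mul_one]
  rw [abs_div, abs_of_pos hη, div_le_iff₀ hη]; linarith

include hη1 in
lemma fid_off {x : ℝ} (h : 1 ≤ |x|) : fid η x = 0 := by
  unfold fid
  rw [chi_zero, mul_zero]
  rw [abs_div, abs_of_pos hη, le_div_iff₀ hη]; linarith

end fns

section gs

variable {η θ : ℝ} (hη : 0 < η) (hη1 : η ≤ 1) (h0 : 0 < θ) (h1 : θ ≤ 1 / 5)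

lemma gg_smooth (θ c : ℝ) : ContDiff ℝ (⊤ : ℕ∞) (gg θ c) := by
  unfold gg
  have h : ContDiff ℝ (⊤ : ℕ∞) (fun x : ℝ => Real.smoothTransition (2 * (x / c) - 1)) :=
    Real.smoothTransition.contDiff.comp (by fun_prop)
  have h2 : ContDiff ℝ (⊤ : ℕ∞) (fun x : ℝ => chi (x / (4 * c))) := chi_smooth.comp (by fun_prop)
  exact ((contDiff_const.mul contDiff_id).sub (contDiff_const.mul h)).mul h2

include hη h0 h1

lemma gg_le (x : ℝ) : |gg θ (η * θ / 8) x| ≤ η := by
  set c := η * θ / 8 with hc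
  have hc0 : 0 < c := by positivity
  unfold gg
  by_cases h : |x| ≤ 4 * c
  · rw [abs_mul, abs_of_nonneg (chi_nonneg _)]
    refine (mul_le_of_le_one_right (abs_nonneg _) (chi_le_one _)).trans ?_
    have hs0 := Real.smoothTransition.nonneg (2 * (x / c) - 1)
    have hs1 := Real.smoothTransition.le_one (2 * (x / c) - 1)
    have hi : θ ≤ 1 / θ := by rw [le_div_iff₀ h0]; nlinarith
    have a1 : |(θ + 1 / θ) * x| ≤ (θ + 1 / θ) * (4 * c) := by
      rw [abs_mul, abs_of_pos (by positivity)]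
      exact mul_le_mul_of_nonneg_left h (by positivity)
    have a2 : |c * (1 / θ - θ) * Real.smoothTransition (2 * (x / c) - 1)| ≤ c * (1 / θ - θ) := by
      rw [abs_of_nonneg (mul_nonneg (mul_nonneg hc0.le (by linarith)) hs0)]
      exact mul_le_of_le_one_right (mul_nonneg hc0.le (by linarith)) hs1
    have a3 := abs_sub ((θ + 1 / θ) * x) (c * (1 / θ - θ) * Real.smoothTransition (2 * (x / c) - 1))
    have a4 : (θ + 1 / θ) * (4 * c) + c * (1 / θ - θ) ≤ η := by
      rw [hc]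
      have : (θ + 1 / θ) * (4 * (η * θ / 8)) + η * θ / 8 * (1 / θ - θ) = η * (5 / 8 + 3 / 8 * θ ^ 2) := by
        field_simp
        ring
      rw [this]
      have h2 : θ ^ 2 ≤ 1 := by nlinarith
      nlinarith
    linarith
  · rw [chi_zero, mul_zero, abs_zero]
    · exact hη.le
    · rw [abs_div, abs_of_pos (by positivity : (0 : ℝ) < 4 * c), le_div_iff₀ (by positivity)]; linarith

include hη1 in
lemma gg_off {x : ℝ} (h : 1 ≤ |x|) : gg θ (η * θ / 8) x = 0 := by
  unfold gg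
  have hc0 : 0 < η * θ / 8 := by positivity
  rw [chi_zero, mul_zero]
  rw [abs_div, abs_of_pos (by positivity : (0 : ℝ) < 4 * (η * θ / 8)), le_div_iff₀ (by positivity)]
  nlinarith

/-- the nonlinearity gives the recurrence -/
lemma gg_X (w : ℤ → Bool) : gg θ (η * θ / 8) (η * θ / 8 * X θ w) =
    η * θ / 8 * X θ (sg w) + η * θ / 8 * X θ (sgi w) := by
  set c := η * θ / 8 with hc
  have hc0 : 0 < c := by positivity
  have b1 := X_bounds h0 h1 w
  have b2 := X_nonneg h0 h1 w
  have b3 := X_le h0 h1 w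
  unfold gg
  have e1 : c * X θ w / c = X θ w := by field_simp
  have e2 : |c * X θ w / (4 * c)| ≤ 1 / 2 := by
    have : c * X θ w / (4 * c) = X θ w / 4 := by field_simp
    rw [this, abs_of_nonneg (by positivity)]; linarith
  rw [e1, chi_one e2, mul_one]
  have e3 : Real.smoothTransition (2 * X θ w - 1) = dg w 0 := by
    unfold dg at b1 ⊢
    split_ifs at b1 ⊢ with hw
    · exact Real.smoothTransition.one_of_one_le (by linarith)
    · exact Real.smoothTransition.zero_of_nonpos (by linarith)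
  rw [e3]
  have := X_rec h0 h1 w
  have e4 : c * X θ (sg w) + c * X θ (sgi w) = c * (X θ (sg w) + X θ (sgi w)) := by ring
  rw [e4, this]
  ring

end gs

variable {ι : Type*} [Fintype ι] [DecidableEq ι]

section pts2

variable {x y : ι} (hxy : x ≠ y)
include hxy

/-- moving the second coordinate -/
lemma mv_y {f : ℝ → ℝ} {a b : ℝ} (hb : |b| ≤ 1 / 2) : mv y (P f x) (pt x y a b) = pt x y a (b + f a) := by
  have h1 : ∏ j ∈ univ.erase x, chi (pt x y a b j) = 1 := by
    apply prod_eq_one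
    intro j hj
    apply chi_one
    by_cases h : j = y
    · rw [h, pt_y]; exact hb
    · unfold pt
      rw [update_of_ne h, update_of_ne (ne_of_mem_erase hj)]
      show |(0 : ℝ)| ≤ 1 / 2
      rw [abs_zero]; norm_num
  unfold mv P
  rw [h1, mul_one, pt_y, pt_x hxy, pt_update_y]

/-- moving the first coordinate -/
lemma mv_x {f : ℝ → ℝ} {a b : ℝ} (ha : |a| ≤ 1 / 2) : mv x (P f y) (pt x y a b) = pt x y (a + f b) b := by
  have h1 : ∏ j ∈ univ.erase y, chi (pt x y a b j) = 1 := by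
    apply prod_eq_one
    intro j hj
    apply chi_one
    by_cases h : j = x
    · rw [h, pt_x hxy]; exact ha
    · unfold pt
      rw [update_of_ne (ne_of_mem_erase hj), update_of_ne h]
      show |(0 : ℝ)| ≤ 1 / 2
      rw [abs_zero]; norm_num
  unfold mv P
  rw [h1, mul_one, pt_y, pt_x hxy, pt_update_x hxy]

end pts2

/-- the smooth map which realizes the shift -/
noncomputable def HH (x y : ι) (η θ : ℝ) : (ι → ℝ) → (ι → ℝ) :=
  mv x (P (fun s => -fid η s) y) ∘ mv y (P (fid η) x) ∘ mv x (P (fun s => -fid η s) y) ∘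
    mv y (P (fun s => -gg θ (η * θ / 8) s) x)

/-- the embedded point -/
noncomputable def Th (x y : ι) (c θ : ℝ) (w : ℤ → Bool) : ι → ℝ := pt x y (c * X θ w) (c * X θ (sgi w))

section HHs

variable {x y t : ι} (hxy : x ≠ y) (hxt : t ≠ x) (hyt : t ≠ y) {M η θ : ℝ}
  (hM : ∀ x y, |chi x - chi y| ≤ M * |x - y|) (hM0 : 0 ≤ M) (hηM : η * M ≤ 1 / 2)
  (hη : 0 < η) (hη1 : η ≤ 1) (h0 : 0 < θ) (h1 : θ ≤ 1 / 5)

include hxy hM hM0 hηM hη hη1 h0 h1 in
lemma HH_Hm : Hm (HH x y η θ) := by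
  unfold HH
  have g1 : GoodP x (P (fun s => -fid η s) y : (ι → ℝ) → ℝ) :=
    P_good hM hηM hM0 (fid_smooth η).neg (fun s hs => by rw [fid_off hη hη1 hs, neg_zero])
      (fun s => by rw [abs_neg]; exact fid_le hη s) hxy.symm
  have g2 : GoodP y (P (fid η) x : (ι → ℝ) → ℝ) :=
    P_good hM hηM hM0 (fid_smooth η) (fun s hs => fid_off hη hη1 hs) (fun s => fid_le hη s) hxy
  have g3 : GoodP y (P (fun s => -gg θ (η * θ / 8) s) x : (ι → ℝ) → ℝ) :=
    P_good hM hηM hM0 (gg_smooth _ _).neg (fun s hs => by rw [gg_off hη hη1 h0 h1 hs, neg_zero])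
      (fun s => by rw [abs_neg]; exact gg_le hη h0 h1 s) hxy
  exact Hm.comp (Hm.mv g1) (Hm.comp (Hm.mv g2) (Hm.comp (Hm.mv g1) (Hm.mv g3)))

omit [DecidableEq ι] in
lemma smooth_HH [DecidableEq ι] (x y : ι) (η θ : ℝ) : ContDiff ℝ (⊤ : ℕ∞) (HH x y η θ) := by
  unfold HH
  have g1 := mv_smooth (i := x) (P_smooth (fid_smooth η).neg y)
  have g2 := mv_smooth (i := y) (P_smooth (fid_smooth η) x)
  have g3 := mv_smooth (i := y) (P_smooth (gg_smooth θ (η * θ / 8)).neg x)
  exact g1.comp (g2.comp (g1.comp g3))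

include hxy hη hη1 h0 h1 in
lemma HH_Th (w : ℤ → Bool) : HH x y η θ (Th x y (η * θ / 8) θ w) = Th x y (η * θ / 8) θ (sg w) := by
  have hg := gg_X hη h0 h1 w
  set c := η * θ / 8 with hc
  have hc0 : 0 < c := by positivity
  have hc1 : 4 * c ≤ η / 2 := by rw [hc]; nlinarith
  have b : ∀ w, 0 ≤ c * X θ w ∧ c * X θ w ≤ 3 / 2 * c := fun w =>
    ⟨mul_nonneg hc0.le (X_nonneg h0 h1 w), by have := X_le h0 h1 w; nlinarith⟩
  have b1 := b w
  have b2 := b (sg w)
  have b3 := b (sgi w)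
  unfold HH Th
  rw [sgi_sg]
  simp only [Function.comp_apply]
  rw [mv_y hxy (by rw [abs_of_nonneg b3.1]; linarith)]
  have e1 : c * X θ (sgi w) + -gg θ c (c * X θ w) = -(c * X θ (sg w)) := by rw [hg]; ring
  rw [e1, mv_x hxy (by rw [abs_of_nonneg b1.1]; linarith)]
  have e2 : fid η (-(c * X θ (sg w))) = -(c * X θ (sg w)) :=
    fid_eq hη (by rw [abs_neg, abs_of_nonneg b2.1]; linarith)
  rw [e2, neg_neg, mv_y hxy (by rw [abs_neg, abs_of_nonneg b2.1]; linarith)]
  have e3 : fid η (c * X θ w + c * X θ (sg w)) = c * X θ w + c * X θ (sg w) :=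
    fid_eq hη (by rw [abs_of_nonneg (by linarith)]; linarith)
  rw [e3, mv_x hxy (by rw [abs_of_nonneg (by linarith)]; linarith)]
  have e4 : -(c * X θ (sg w)) + (c * X θ w + c * X θ (sg w)) = c * X θ w := by ring
  have e5 : fid η (c * X θ w) = c * X θ w := fid_eq hη (by rw [abs_of_nonneg b1.1]; linarith)
  rw [e4, e5]
  congr 1
  ring

include hxt hyt in
lemma HH_t (v : ι → ℝ) : HH x y η θ v t = v t := by
  unfold HH
  simp only [Function.comp_apply]
  rw [mv_ne hxt, mv_ne hyt, mv_ne hxt, mv_ne hyt]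

end HHs

lemma Th_cont {θ : ℝ} (h0 : 0 < θ) (h1 : θ ≤ 1 / 5) (x y : ι) (c : ℝ) : Continuous (Th x y c θ) := by
  unfold Th pt
  have h2 : Continuous (fun w : ℤ → Bool => update (0 : ι → ℝ) x (c * X θ w)) :=
    continuous_const.update x (continuous_const.mul (X_cont h0 h1))
  exact h2.update y (continuous_const.mul ((X_cont h0 h1).comp sgi_cont))

/-- **Smooth diffeomorphisms.** A smooth diffeomorphism supported in the unit cube, of zero entropy, which extends
the subshift generated by the sequence `b` of zero entropy. -/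
theorem exists_smooth {x y t : ι} (hxy : x ≠ y) (hxt : t ≠ x) (hyt : t ≠ y) {b : ℕ → Bool} (hb : ZE b)
    {θ : ℝ} (h0 : 0 < θ) (h1 : θ ≤ 1 / 5) :
    ∃ (F : (ι → ℝ) → (ι → ℝ)) (c : ℝ), 0 < c ∧ c ≤ 1 / 8 ∧ Hm F ∧ ContDiff ℝ (⊤ : ℕ∞) F ∧
      EZ F (Metric.closedBall 0 1) ∧ ∀ w ∈ Om b, F (Th x y c θ w) = Th x y c θ (sg w) := by
  obtain ⟨M, hM1, hM⟩ := chi_lip
  set η : ℝ := 1 / (2 * M) with hηd
  have hη : 0 < η := by positivity
  have hηM : η * M ≤ 1 / 2 := by rw [hηd]; apply le_of_eq; field_simp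
  have hη1 : η ≤ 1 := by
    rw [hηd, div_le_one (by positivity)]; linarith
  set c := η * θ / 8 with hc
  have hc0 : 0 < c := by positivity
  have hc1 : c ≤ 1 / 8 := by rw [hc]; nlinarith
  set G := HH x y η θ with hG
  have hGm : Hm G := HH_Hm hxy hM (by linarith) hηM hη hη1 h0 h1
  have hGs : ContDiff ℝ (⊤ : ℕ∞) G := smooth_HH x y η θ
  have hGpt : ∀ w, G (Th x y c θ w) = Th x y c θ (sg w) := HH_Th hxy hη hη1 h0 h1
  set K : Set (ι → ℝ) := Th x y c θ '' Om b with hK
  have hKc : IsClosed K := ((isClosed_closure.isCompact).image (Th_cont h0 h1 x y c)).isClosed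
  obtain ⟨φ, p1, p2, p3, p4, p5⟩ := exists_push hKc t
  set F : (ι → ℝ) → (ι → ℝ) := mv t φ ∘ G with hF
  have hFm : Hm F := (Hm.mv p2).comp hGm
  have hFs : ContDiff ℝ (⊤ : ℕ∞) F := (mv_smooth p1).comp hGs
  have hGK : ∀ w ∈ Om b, Th x y c θ (sg w) ∈ K := fun w hw => ⟨sg w, Om_maps b hw, rfl⟩
  have hFpt : ∀ w ∈ Om b, F (Th x y c θ w) = Th x y c θ (sg w) := by
    intro w hw
    show mv t φ (G (Th x y c θ w)) = _
    rw [hGpt]
    unfold mv
    rw [p4 _ (hGK w hw), add_zero, update_eq_self]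
  refine ⟨F, c, hc0, hc1, hFm, hFs, ?_, hFpt⟩
  have hball : ∀ v, ‖v‖ ≤ 1 → ‖F v‖ ≤ 1 := by
    intro v hv
    rcases lt_or_eq_of_le hv with h | h
    · exact (hFm.ball h).le
    · rw [hFm.off v h.ge]; exact hv
  apply EZ.of_visits hFm.cont (isCompact_closedBall 0 1)
    (fun v hv => mem_closedBall_zero_iff.2 (hball v (mem_closedBall_zero_iff.1 hv)))
    (Z := K ∪ Metric.sphere 0 1)
  · apply EZ.union
    · exact EZ_Om (Th_cont h0 h1 x y c) hFpt hb
    · exact EZ.of_fixed (isCompact_sphere 0 1) (fun v hv => hFm.off v (mem_sphere_zero_iff_norm.1 hv).ge)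
  · intro N hN hZN
    have hτ : ∀ v, F v t = v t + φ (G v) := by
      intro v
      show mv t φ (G v) t = _
      unfold mv
      rw [update_self, hG, HH_t hxt hyt]
    apply visits hFm.cont hFm.off hball (K := K) (τ := fun v => v t) (continuous_apply t)
      (fun v hv => (coord_le v t).trans hv) _ _ hN hZN
    · intro v hv hvK
      show v t < F v t
      rw [hτ]
      have hGK' : G v ∉ K := by
        rintro ⟨w, hw, hw2⟩
        apply hvK
        refine ⟨sgi w, Om_mapsi b hw, ?_⟩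
        apply hGm.inj
        show G (Th x y c θ (sgi w)) = G v
        rw [hGpt, sg_sgi]; exact hw2
      have := p5 _ hGK' (hGm.ball hv)
      linarith
    · intro v
      show v t ≤ F v t
      rw [hτ]
      have := p3 (G v)
      linarith

end Pool.Agent.Q127.SD
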