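import Mathlib
import Pool.Agent.Q127.SD.C

/-!
# Orthogonality to the smooth diffeomorphisms (helper127)
-/

set_option autoImplicit false

namespace Pool.Agent.Q127.SD

open Finset Filter Topology Function Dynamics
open Pool.Agent.Q132.CB
open Pool.Agent.Q132.TS (ZE HasWords Good Av ind Sar)

variable {ι : Type*} [Fintype ι] [DecidableEq ι]

omit [Fintype ι] in
lemma Th_orbit {θ c : ℝ} {x y : ι} {b : ℕ → Bool} {F : (ι → ℝ) → (ι → ℝ)}
    (hF : ∀ w ∈ Om b, F (Th x y c θ w) = Th x y c θ (sg w)) (n : ℕ) :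
    F^[n] (Th x y c θ (bt b)) = Th x y c θ (sg^[n] (bt b)) := by
  induction n with
  | zero => rfl
  | succ n ih =>
    rw [Function.iterate_succ_apply', ih, hF _ (orbit_mem b n), Function.iterate_succ_apply']

lemma Th_norm' {θ c : ℝ} (h0 : 0 < θ) (h1 : θ ≤ 1 / 5) (hc0 : 0 < c) (hc1 : c ≤ 1 / 8) (x y : ι)
    (w : ℤ → Bool) : ‖Th x y c θ w‖ ≤ 1 / 2 := by
  have b : ∀ w, |c * X θ w| ≤ 1 / 4 := fun w => by
    have a1 := X_nonneg h0 h1 w
    have a2 := X_le h0 h1 w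
    rw [abs_of_nonneg (mul_nonneg hc0.le a1)]
    nlinarith
  exact (pt_norm (b _) (b _)).trans (by norm_num)

lemma approx_X {θ : ℝ} (g0 : 0 < θ / 2) (g1 : θ / 2 ≤ 1 / 5) (b : ℕ → Bool) (n : ℕ) :
    |1 / 8 * X (θ / 2) (sg^[n] (bt b)) - (if b n then 1 / 8 else 0)| ≤ 3 / 16 * θ := by
  have e1 := X_bounds g0 g1 (sg^[n] (bt b))
  unfold dg at e1
  rw [bt_orbit] at e1
  have e2 : (1 / 8 * X (θ / 2) (sg^[n] (bt b)) - if b n = true then 1 / 8 else 0) =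
      1 / 8 * (X (θ / 2) (sg^[n] (bt b)) - if b n = true then 1 else 0) := by
    split_ifs <;> ring
  rw [e2, abs_mul, abs_of_pos (by norm_num : (0 : ℝ) < 1 / 8), abs_of_nonneg (by linarith [e1.1])]
  linarith [e1.2]

lemma Th_norm {θ c : ℝ} (h0 : 0 < θ) (h1 : θ ≤ 1 / 5) (hc0 : 0 < c) (hc1 : c ≤ 1 / 8) (x y : ι)
    (w : ℤ → Bool) : ‖Th x y c θ w‖ ≤ 1 := by
  have b : ∀ w, |c * X θ w| ≤ 1 / 4 := fun w => by
    have a1 := X_nonneg h0 h1 w
    have a2 := X_le h0 h1 w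
    rw [abs_of_nonneg (mul_nonneg hc0.le a1)]
    nlinarith
  exact (pt_norm (b _) (b _)).trans (by norm_num)

/-- the smooth diffeomorphisms supported in the unit cube suffice -/
theorem of_smooth {κ : ℕ → ℕ → ℂ} (hκ : Good κ) {x y t : ι} (hxy : x ≠ y) (hxt : t ≠ x) (hyt : t ≠ y)
    (H : ∀ F : (ι → ℝ) → (ι → ℝ), Hm F → ContDiff ℝ (⊤ : ℕ∞) F →
      coverEntropy F (Metric.closedBall 0 1) = 0 → ∀ v, ‖v‖ ≤ 1 →
      Tendsto (Av κ (fun n => ((F^[n] v x : ℝ) : ℂ))) atTop (𝓝 0)) (b : ℕ → Bool) (hb : ZE b) :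
    Tendsto (Av κ (ind b)) atTop (𝓝 0) := by
  apply approx_ind hκ (c := 1 / 8) (by norm_num)
  intro θ h0 h1
  have g0 : 0 < θ / 2 := by positivity
  have g1 : θ / 2 ≤ 1 / 5 := by linarith
  obtain ⟨F, c, hc0, hc1, hF, hFs, hE, hpt⟩ := exists_smooth hxy hxt hyt hb g0 g1
  refine ⟨fun n => 1 / 8 * X (θ / 2) (sg^[n] (bt b)), fun n => ?_, ?_⟩
  · have e1 := X_bounds g0 g1 (sg^[n] (bt b))
    unfold dg at e1
    rw [bt_orbit] at e1
    have e2 : (1 / 8 * X (θ / 2) (sg^[n] (bt b)) - if b n = true then 1 / 8 else 0) =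
        1 / 8 * (X (θ / 2) (sg^[n] (bt b)) - if b n = true then 1 else 0) := by
      split_ifs <;> ring
    rw [e2, abs_mul, abs_of_pos (by norm_num : (0 : ℝ) < 1 / 8), abs_of_nonneg (by linarith [e1.1])]
    linarith [e1.2]
  · have h2 := H F hF hFs (ent_zero hE ⟨0, by simp⟩) (Th x y c (θ / 2) (bt b)) (Th_norm g0 g1 hc0 hc1 x y _)
    have h3 := h2.const_mul ((1 / (8 * c) : ℝ) : ℂ)
    rw [mul_zero] at h3
    refine h3.congr (fun N => ?_)
    rw [← Pool.Agent.Q132.TS.Av_smul]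
    congr 1
    funext n
    rw [Th_orbit hpt]
    unfold Th
    rw [pt_x hxy]
    have hc' : (c : ℂ) ≠ 0 := by exact_mod_cast hc0.ne'
    push_cast
    field_simp

end Pool.Agent.Q127.SD
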