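import Mathlib
import Pool.Agent.Q127.SD.D

/-!
# Smooth maps of zero entropy in dimension two with a given subshift (helper127)
-/

set_option autoImplicit false

namespace Pool.Agent.Q127.SD

open Finset Filter Topology Function Dynamics
open Pool.Agent.Q132.CB
open Pool.Agent.Q132.TS (ZE HasWords Good Av ind Sar)

/-- the expanding function -/
noncomputable def tt (θ s : ℝ) : ℝ :=
  chi (s / (4 * (θ / 8))) * ((s - θ / 8 * Real.smoothTransition (2 * (s / (θ / 8)) - 1)) / θ)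

lemma tt_smooth (θ : ℝ) : ContDiff ℝ (⊤ : ℕ∞) (tt θ) := by
  unfold tt
  have h : ContDiff ℝ (⊤ : ℕ∞) (fun x : ℝ => Real.smoothTransition (2 * (x / (θ / 8)) - 1)) :=
    Real.smoothTransition.contDiff.comp (by fun_prop)
  have h2 : ContDiff ℝ (⊤ : ℕ∞) (fun x : ℝ => chi (x / (4 * (θ / 8)))) := chi_smooth.comp (by fun_prop)
  exact h2.mul ((contDiff_id.sub (contDiff_const.mul h)).div_const _)

section tts

variable {θ : ℝ} (h0 : 0 < θ) (h1 : θ ≤ 1 / 5)
include h0

lemma tt_le (s : ℝ) : |tt θ s| ≤ 1 := by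
  unfold tt
  set c := θ / 8 with hc
  have hc0 : 0 < c := by positivity
  by_cases h : |s| ≤ 4 * c
  · rw [abs_mul, abs_of_nonneg (chi_nonneg _), abs_div, abs_of_pos h0]
    have hs0 := Real.smoothTransition.nonneg (2 * (s / c) - 1)
    have hs1 := Real.smoothTransition.le_one (2 * (s / c) - 1)
    have a2 : |c * Real.smoothTransition (2 * (s / c) - 1)| ≤ c := by
      rw [abs_of_nonneg (mul_nonneg hc0.le hs0)]
      exact mul_le_of_le_one_right hc0.le hs1
    have a3 := abs_sub s (c * Real.smoothTransition (2 * (s / c) - 1))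
    have a4 : |s - c * Real.smoothTransition (2 * (s / c) - 1)| / θ ≤ 1 := by
      rw [div_le_one h0]
      linarith
    have a5 := chi_le_one (s / (4 * c))
    have a6 := chi_nonneg (s / (4 * c))
    have a7 : 0 ≤ |s - c * Real.smoothTransition (2 * (s / c) - 1)| / θ := by positivity
    nlinarith
  · rw [chi_zero, zero_mul, abs_zero]
    · norm_num
    · rw [abs_div, abs_of_pos (by positivity : (0 : ℝ) < 4 * c), le_div_iff₀ (by positivity)]; linarith

include h1

lemma XA_bounds (w : ℤ → Bool) : dg w 0 ≤ XA θ w ∧ XA θ w ≤ dg w 0 + 5 / 4 * θ := by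
  have a1 := XA_sg h0 h1 w
  have a2 := XA_nonneg h0 h1 (sg w)
  have a3 := XA_le h0 h1 (sg w)
  constructor <;> nlinarith

lemma tt_XA (w : ℤ → Bool) : tt θ (θ / 8 * XA θ w) = θ / 8 * XA θ (sg w) := by
  unfold tt
  set c := θ / 8 with hc
  have hc0 : 0 < c := by positivity
  have b1 := XA_bounds h0 h1 w
  have b2 := XA_nonneg h0 h1 w
  have b3 := XA_le h0 h1 w
  have e1 : c * XA θ w / c = XA θ w := by field_simp
  have e2 : |c * XA θ w / (4 * c)| ≤ 1 / 2 := by
    have : c * XA θ w / (4 * c) = XA θ w / 4 := by field_simp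
    rw [this, abs_of_nonneg (by positivity)]; linarith
  rw [e1, chi_one e2, one_mul]
  have e3 : Real.smoothTransition (2 * XA θ w - 1) = dg w 0 := by
    unfold dg at b1 ⊢
    split_ifs at b1 ⊢ with hw
    · exact Real.smoothTransition.one_of_one_le (by linarith)
    · exact Real.smoothTransition.zero_of_nonpos (by linarith)
  rw [e3]
  have := XA_sg h0 h1 w
  rw [div_eq_iff h0.ne']
  linear_combination c * this

lemma XA_cont : Continuous (XA θ) := by
  unfold XA
  have hd : ∀ i : ℤ, Continuous (fun w : ℤ → Bool => dg w i) := by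
    intro i
    have : (fun w : ℤ → Bool => dg w i) = (fun c : Bool => if c then (1 : ℝ) else 0) ∘ (fun w => w i) := rfl
    rw [this]
    exact continuous_of_discreteTopology.comp (continuous_apply i)
  apply continuous_tsum (u := fun n : ℕ => θ ^ n)
  · intro n; exact continuous_const.mul (hd n)
  · exact geoS h0 h1
  · intro n w
    rw [Real.norm_eq_abs, abs_of_nonneg (mul_nonneg (by positivity) (dg_mem w n).1)]
    exact mul_le_of_le_one_right (by positivity) (dg_mem w n).2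

end tts

variable {ι : Type*} [Fintype ι] [DecidableEq ι]

/-- the smooth cutoff of the cube -/
noncomputable def QQ (v : ι → ℝ) : ℝ := ∏ j, chi (v j)

omit [DecidableEq ι] in
lemma QQ_smooth : ContDiff ℝ (⊤ : ℕ∞) (QQ : (ι → ℝ) → ℝ) := by
  unfold QQ
  exact contDiff_prod (fun j _ => chi_smooth.comp (contDiff_apply ℝ ℝ j))

omit [DecidableEq ι] in
lemma QQ_zero {v : ι → ℝ} (hv : 1 ≤ ‖v‖) : QQ v = 0 := by
  obtain ⟨j, hj⟩ : ∃ j, 1 ≤ |v j| := by
    by_contra hcon
    push Not at hcon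
    have : ‖v‖ < 1 := (pi_norm_lt_iff one_pos).2 (fun j => hcon j)
    linarith
  exact prod_eq_zero (mem_univ j) (chi_zero hj)

lemma QQ_one {v : ι → ℝ} (hv : ‖v‖ ≤ 1 / 2) : QQ v = 1 :=
  prod_eq_one (fun j _ => chi_one ((coord_le v j).trans hv))

omit [DecidableEq ι] in
lemma QQ_nonneg (v : ι → ℝ) : 0 ≤ QQ v := prod_nonneg (fun j _ => chi_nonneg _)

omit [DecidableEq ι] in
lemma QQ_le (v : ι → ℝ) : QQ v ≤ 1 := prod_le_one (fun j _ => chi_nonneg _) (fun j _ => chi_le_one _)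

/-- **Smooth maps.** A smooth map which is the identity outside the unit cube, of zero entropy, which extends
the subshift generated by the sequence `b` of zero entropy. -/
theorem exists_smooth_map {x t : ι} (hxt : x ≠ t) {b : ℕ → Bool} (hb : ZE b)
    {θ : ℝ} (h0 : 0 < θ) (h1 : θ ≤ 1 / 5) :
    ∃ F : (ι → ℝ) → (ι → ℝ), ContDiff ℝ (⊤ : ℕ∞) F ∧
      (∀ v, 1 ≤ ‖v‖ → F v = v) ∧ (∀ v, ‖v‖ ≤ 1 → ‖F v‖ ≤ 1) ∧ EZ F (Metric.closedBall 0 1) ∧
      ∀ w ∈ Om b, F (pt x t (θ / 8 * XA θ w) 0) = pt x t (θ / 8 * XA θ (sg w)) 0 := by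
  have hcont1 : Continuous (fun w : ℤ → Bool => pt x t (θ / 8 * XA θ w) 0) := by
    unfold pt
    have h2 : Continuous (fun w : ℤ → Bool => update (0 : ι → ℝ) x (θ / 8 * XA θ w)) :=
      continuous_const.update x (continuous_const.mul (XA_cont h0 h1))
    exact h2.update t continuous_const
  set K : Set (ι → ℝ) := (fun w : ℤ → Bool => pt x t (θ / 8 * XA θ w) 0) '' Om b with hK
  have hKc : IsClosed K := ((isClosed_closure.isCompact).image hcont1).isClosed
  obtain ⟨φ, p1, p2, p3, p4, p5⟩ := exists_push hKc t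
  have hPm : Hm (mv t φ) := Hm.mv p2
  set q : (ι → ℝ) → ℝ := fun v => QQ v * (tt θ (v x) - v x) with hq
  set G : (ι → ℝ) → (ι → ℝ) := mv x q with hG
  set F : (ι → ℝ) → (ι → ℝ) := G ∘ mv t φ with hF
  have hqs : ContDiff ℝ (⊤ : ℕ∞) q :=
    QQ_smooth.mul (((tt_smooth θ).comp (contDiff_apply ℝ ℝ x)).sub (contDiff_apply ℝ ℝ x))
  have hFs : ContDiff ℝ (⊤ : ℕ∞) F := (mv_smooth hqs).comp (mv_smooth p1)
  have hcont : Continuous F := hFs.continuous
  have hoff : ∀ v, 1 ≤ ‖v‖ → F v = v := by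
    intro v hv
    show mv x q (mv t φ v) = v
    have e1 : mv t φ v = v := hPm.off v hv
    rw [e1]
    unfold mv
    rw [hq]
    simp only
    rw [QQ_zero hv, zero_mul, add_zero, update_eq_self]
  have hball : ∀ v, ‖v‖ ≤ 1 → ‖F v‖ ≤ 1 := by
    intro v hv
    have hv2 : ‖mv t φ v‖ ≤ 1 := by
      rcases lt_or_eq_of_le hv with h | h
      · exact (hPm.ball h).le
      · rw [hPm.off v h.ge]; exact hv
    show ‖mv x q (mv t φ v)‖ ≤ 1
    generalize mv t φ v = v' at hv2
    rw [pi_norm_le_iff_of_nonneg zero_le_one]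
    intro j
    rw [Real.norm_eq_abs]
    have hc : |v' j| ≤ 1 := (coord_le v' j).trans hv2
    unfold mv
    by_cases hj : j = x
    · subst hj
      rw [update_self, hq]
      simp only
      have e2 : v' j + QQ v' * (tt θ (v' j) - v' j) = (1 - QQ v') * v' j + QQ v' * tt θ (v' j) := by ring
      have q1 := QQ_nonneg v'
      have q2 := QQ_le v'
      have t1 := abs_le.1 (tt_le h0 (v' j))
      have t2 := abs_le.1 hc
      rw [e2, abs_le]
      constructor <;> nlinarith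
    · rw [update_of_ne hj]; exact hc
  have hFpt : ∀ w ∈ Om b, F (pt x t (θ / 8 * XA θ w) 0) = pt x t (θ / 8 * XA θ (sg w)) 0 := by
    intro w hw
    have hmem : pt x t (θ / 8 * XA θ w) 0 ∈ K := ⟨w, hw, rfl⟩
    have e1 : mv t φ (pt x t (θ / 8 * XA θ w) 0) = pt x t (θ / 8 * XA θ w) 0 := by
      unfold mv
      rw [p4 _ hmem, add_zero, update_eq_self]
    show mv x q (mv t φ (pt x t (θ / 8 * XA θ w) 0)) = _
    rw [e1]
    unfold mv
    rw [hq]
    simp only
    have a1 := XA_nonneg h0 h1 w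
    have a2 := XA_le h0 h1 w
    have hka : |θ / 8 * XA θ w| ≤ 1 / 4 := by
      rw [abs_of_nonneg (by positivity)]; nlinarith
    rw [QQ_one ((pt_norm hka (by rw [abs_zero]; norm_num)).trans (by norm_num)), one_mul, pt_x hxt,
      tt_XA h0 h1, add_sub_cancel, pt_update_x hxt]
  refine ⟨F, hFs, hoff, hball, ?_, hFpt⟩
  apply EZ.of_visits hcont (isCompact_closedBall 0 1)
    (fun v hv => mem_closedBall_zero_iff.2 (hball v (mem_closedBall_zero_iff.1 hv)))
    (Z := K ∪ Metric.sphere 0 1)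
  · apply EZ.union
    · exact EZ_Om hcont1 hFpt hb
    · exact EZ.of_fixed (isCompact_sphere 0 1) (fun v hv => hoff v (mem_sphere_zero_iff_norm.1 hv).ge)
  · intro N hN hZN
    have hτ : ∀ v, F v t = v t + φ v := by
      intro v
      show mv x q (mv t φ v) t = _
      rw [mv_ne hxt.symm]
      unfold mv
      rw [update_self]
    apply visits hcont hoff hball (K := K) (τ := fun v => v t) (continuous_apply t)
      (fun v hv => (coord_le v t).trans hv) _ _ hN hZN
    · intro v hv hvK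
      show v t < F v t
      rw [hτ]
      have := p5 _ hvK hv
      linarith
    · intro v
      show v t ≤ F v t
      rw [hτ]
      have := p3 v
      linarith

omit [Fintype ι] in
lemma map_orbit {x t : ι} {b : ℕ → Bool} {F : (ι → ℝ) → (ι → ℝ)} {θ : ℝ}
    (hpt : ∀ w ∈ Om b, F (pt x t (θ / 8 * XA θ w) 0) = pt x t (θ / 8 * XA θ (sg w)) 0) (n : ℕ) :
    F^[n] (pt x t (θ / 8 * XA θ (bt b)) 0) = pt x t (θ / 8 * XA θ (sg^[n] (bt b))) 0 := by
  induction n with
  | zero => rfl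
  | succ n ih =>
    rw [Function.iterate_succ_apply', ih, hpt _ (orbit_mem b n), Function.iterate_succ_apply']

lemma map_norm {θ : ℝ} (h0 : 0 < θ) (h1 : θ ≤ 1 / 5) (x t : ι) (w : ℤ → Bool) :
    ‖pt x t (θ / 8 * XA θ w) 0‖ ≤ 1 / 4 := by
  have a1 := XA_nonneg h0 h1 w
  have a2 := XA_le h0 h1 w
  have hka : |θ / 8 * XA θ w| ≤ 1 / 4 := by
    rw [abs_of_nonneg (by positivity)]; nlinarith
  exact pt_norm hka (by rw [abs_zero]; norm_num)

/-- the approximation used for smooth maps -/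
lemma approx_map {θ : ℝ} (g0 : 0 < θ / 2) (g1 : θ / 2 ≤ 1 / 5) (b : ℕ → Bool) (n : ℕ) :
    |1 / 8 * XA (θ / 2) (sg^[n] (bt b)) - (if b n then 1 / 8 else 0)| ≤ 3 / 16 * θ := by
  have e1 := XA_bounds g0 g1 (sg^[n] (bt b))
  unfold dg at e1
  rw [bt_orbit] at e1
  have e2 : (1 / 8 * XA (θ / 2) (sg^[n] (bt b)) - if b n = true then 1 / 8 else 0) =
      1 / 8 * (XA (θ / 2) (sg^[n] (bt b)) - if b n = true then 1 else 0) := by
    split_ifs <;> ring
  rw [e2, abs_mul, abs_of_pos (by norm_num : (0 : ℝ) < 1 / 8), abs_of_nonneg (by linarith [e1.1])]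
  linarith [e1.2]

/-- scaling the observable -/
lemma scale_av {κ : ℕ → ℕ → ℂ} {c : ℝ} (hc : 0 < c) {X : ℕ → ℝ}
    (h : Tendsto (Av κ (fun n => ((c * X n : ℝ) : ℂ))) atTop (𝓝 0)) :
    Tendsto (Av κ (fun n => ((1 / 8 * X n : ℝ) : ℂ))) atTop (𝓝 0) := by
  have h3 := h.const_mul ((1 / (8 * c) : ℝ) : ℂ)
  rw [mul_zero] at h3
  refine h3.congr (fun N => ?_)
  rw [← Pool.Agent.Q132.TS.Av_smul]
  congr 1
  funext n
  have hc' : (c : ℂ) ≠ 0 := by exact_mod_cast hc.ne'
  push_cast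
  field_simp

/-- the smooth maps which are the identity outside the unit cube suffice -/
theorem of_smooth_maps {κ : ℕ → ℕ → ℂ} (hκ : Good κ) {x t : ι} (hxt : x ≠ t)
    (H : ∀ F : (ι → ℝ) → (ι → ℝ), ContDiff ℝ (⊤ : ℕ∞) F → (∀ v, 1 ≤ ‖v‖ → F v = v) → (∀ v, ‖v‖ ≤ 1 → ‖F v‖ ≤ 1) →
      coverEntropy F (Metric.closedBall 0 1) = 0 → ∀ v, ‖v‖ ≤ 1 →
      Tendsto (Av κ (fun n => ((F^[n] v x : ℝ) : ℂ))) atTop (𝓝 0)) (b : ℕ → Bool) (hb : ZE b) :
    Tendsto (Av κ (ind b)) atTop (𝓝 0) := by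
  apply approx_ind hκ (c := 1 / 8) (by norm_num)
  intro θ h0 h1
  have g0 : 0 < θ / 2 := by positivity
  have g1 : θ / 2 ≤ 1 / 5 := by linarith
  obtain ⟨F, hFs, hoff, hball, hE, hpt⟩ := exists_smooth_map hxt hb g0 g1
  refine ⟨fun n => 1 / 8 * XA (θ / 2) (sg^[n] (bt b)), approx_map g0 g1 b, ?_⟩
  have h2 := H F hFs hoff hball (ent_zero hE ⟨0, by simp⟩) (pt x t (θ / 2 / 8 * XA (θ / 2) (bt b)) 0)
    ((map_norm g0 g1 x t _).trans (by norm_num))
  refine scale_av (c := θ / 2 / 8) (by positivity) (h2.congr (fun N => ?_))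
  congr 1
  funext n
  rw [map_orbit hpt, pt_x hxt]

end Pool.Agent.Q127.SD
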