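import Mathlib
import Pool.Agent.Q127.SD.E

/-!
# Smooth dynamics of zero entropy on a manifold with a given subshift (helper127)
-/

set_option autoImplicit false

namespace Pool.Agent.Q127.SD

open Finset Filter Topology Function Dynamics
open scoped Manifold ContDiff
open Pool.Agent.Q132.CB
open Pool.Agent.Q132.TS (ZE HasWords Good Av ind Sar)

section man

variable {d : ℕ} {M : Type*} [MetricSpace M] [ChartedSpace (EuclideanSpace ℝ (Fin d)) M]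

/-- a smooth copy of `ℝ ^ d` in the open subset `U` of the manifold -/
structure Copy (U : Set M) (j : (Fin d → ℝ) → M) (k : M → (Fin d → ℝ)) : Prop where
  emb : IsOpenEmbedding j
  sub : Set.range j ⊆ U
  left : ∀ v, k (j v) = v
  smooth : ContMDiff 𝓘(ℝ, Fin d → ℝ) (𝓡 d) ∞ j
  inv : ContMDiffOn (𝓡 d) 𝓘(ℝ, Fin d → ℝ) ∞ k (Set.range j)

lemma exists_copy [IsManifold (𝓡 d) ∞ M] {U : Set M} (hU : IsOpen U) {m0 : M} (hm0 : m0 ∈ U) :
    ∃ (j : (Fin d → ℝ) → M) (k : M → (Fin d → ℝ)), Copy U j k := by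
  set φ := chartAt (EuclideanSpace ℝ (Fin d)) m0 with hφ
  have ho : IsOpen (φ.target ∩ φ.symm ⁻¹' U) := φ.isOpen_inter_preimage_symm hU
  have hmem : φ m0 ∈ φ.target ∩ φ.symm ⁻¹' U := by
    refine ⟨mem_chart_target _ m0, ?_⟩
    rw [Set.mem_preimage, φ.left_inv (mem_chart_source _ m0)]
    exact hm0
  obtain ⟨r, hr, hsub⟩ := Metric.isOpen_iff.1 ho _ hmem
  set ψ : OpenPartialHomeomorph (EuclideanSpace ℝ (Fin d)) (EuclideanSpace ℝ (Fin d)) :=
    OpenPartialHomeomorph.univBall (φ m0) r with hψ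
  have hψs : ψ.source = Set.univ := OpenPartialHomeomorph.univBall_source _ _
  have hψt : ψ.target = Metric.ball (φ m0) r := OpenPartialHomeomorph.univBall_target _ hr
  have hψm : ∀ z, ψ z ∈ Metric.ball (φ m0) r := by
    intro z
    rw [← hψt]
    exact ψ.map_source (by rw [hψs]; trivial)
  set e := EuclideanSpace.equiv (Fin d) ℝ with he
  set j : (Fin d → ℝ) → M := fun v => φ.symm (ψ (e.symm v)) with hj
  set k : M → (Fin d → ℝ) := fun m => e (ψ.symm (φ m)) with hk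
  have hφj : ∀ v, φ (j v) = ψ (e.symm v) := fun v => φ.right_inv (hsub (hψm _)).1
  have hleft : ∀ v, k (j v) = v := by
    intro v
    simp only [hk]
    rw [hφj, ψ.left_inv (by rw [hψs]; trivial), e.apply_symm_apply]
  have hjs : ContMDiff 𝓘(ℝ, Fin d → ℝ) (𝓡 d) ∞ j := by
    have a1 : ContMDiff 𝓘(ℝ, Fin d → ℝ) (𝓡 d) ∞ (fun v : Fin d → ℝ => ψ (e.symm v)) :=
      (OpenPartialHomeomorph.contDiff_univBall.comp e.symm.contDiff).contMDiff
    have a2 : ContMDiffOn (𝓡 d) (𝓡 d) ∞ φ.symm φ.target := contMDiffOn_chart_symm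
    exact a2.comp_contMDiff a1 (fun v => (hsub (hψm _)).1)
  have hki : ContMDiffOn (𝓡 d) 𝓘(ℝ, Fin d → ℝ) ∞ k (Set.range j) := by
    have a1 : ContMDiffOn (𝓡 d) (𝓡 d) ∞ φ φ.source := contMDiffOn_chart
    have a2 : ContMDiffOn (𝓡 d) (𝓡 d) ∞ ψ.symm (Metric.ball (φ m0) r) :=
      OpenPartialHomeomorph.contDiffOn_univBall_symm.contMDiffOn
    have a3 : ContMDiff (𝓡 d) 𝓘(ℝ, Fin d → ℝ) ∞ e := e.contDiff.contMDiff
    refine a3.comp_contMDiffOn (a2.comp (a1.mono ?_) ?_)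
    · rintro _ ⟨v, rfl⟩
      exact φ.map_target (hsub (hψm _)).1
    · rintro _ ⟨v, rfl⟩
      show φ (j v) ∈ Metric.ball (φ m0) r
      rw [hφj]; exact hψm _
  have hemb : IsOpenEmbedding j := by
    let J : OpenPartialHomeomorph (Fin d → ℝ) M :=
      (e.symm.toHomeomorph.toOpenPartialHomeomorph).trans (ψ.trans φ.symm)
    have hJ : (J : (Fin d → ℝ) → M) = j := rfl
    rw [← hJ]
    apply J.isOpenEmbedding
    apply Set.eq_univ_of_forall
    intro v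
    rw [OpenPartialHomeomorph.trans_source, OpenPartialHomeomorph.trans_source]
    refine ⟨trivial, ?_, ?_⟩
    · rw [hψs]; trivial
    · exact (hsub (hψm _)).1
  refine ⟨j, k, hemb, ?_, hleft, hjs, hki⟩
  rintro _ ⟨v, rfl⟩
  exact (hsub (hψm _)).2

variable {U : Set M} {j : (Fin d → ℝ) → M} {k : M → (Fin d → ℝ)} (hc : Copy U j k)
include hc

lemma extend_smooth {E' : Type*} [NormedAddCommGroup E'] [NormedSpace ℝ E'] {H' : Type*} [TopologicalSpace H']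
    {I' : ModelWithCorners ℝ E' H'} {N : Type*} [TopologicalSpace N] [ChartedSpace H' N]
    {φ : (Fin d → ℝ) → N} {ψ : M → N} (hφ : ContMDiff 𝓘(ℝ, Fin d → ℝ) I' ∞ φ) (hψ : ContMDiff (𝓡 d) I' ∞ ψ)
    (h : ∀ v, 1 ≤ ‖v‖ → φ v = ψ (j v)) : ContMDiff (𝓡 d) I' ∞ (Function.extend j φ ψ) := by
  intro m
  by_cases hm : m ∈ Set.range j
  · have hn : Set.range j ∈ 𝓝 m := hc.emb.isOpen_range.mem_nhds hm
    have h1 : ContMDiffAt (𝓡 d) I' ∞ (φ ∘ k) m :=
      hφ.contMDiffAt.comp m (hc.inv.contMDiffAt hn)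
    apply h1.congr_of_eventuallyEq
    filter_upwards [hn]
    rintro _ ⟨v, rfl⟩
    rw [hc.emb.injective.extend_apply, Function.comp_apply, hc.left]
  · have hU : (j '' Metric.closedBall 0 1)ᶜ ∈ 𝓝 m := by
      apply IsOpen.mem_nhds
      · exact ((isCompact_closedBall 0 1).image hc.emb.continuous).isClosed.isOpen_compl
      · rintro ⟨v, _, hv⟩; exact hm ⟨v, hv⟩
    apply hψ.contMDiffAt.congr_of_eventuallyEq
    filter_upwards [hU] with m' hm'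
    by_cases h' : ∃ v, j v = m'
    · obtain ⟨v, rfl⟩ := h'
      rw [hc.emb.injective.extend_apply]
      have : ¬ ‖v‖ ≤ 1 := fun hv => hm' ⟨v, mem_closedBall_zero_iff.2 hv, rfl⟩
      exact h v (by linarith)
    · rw [Function.extend_apply' _ _ _ h']

lemma FM_smooth {F : (Fin d → ℝ) → (Fin d → ℝ)} (hF : ContDiff ℝ ∞ F) (hoff : ∀ v, 1 ≤ ‖v‖ → F v = v) :
    ContMDiff (𝓡 d) (𝓡 d) ∞ (FM j F) := by
  unfold FM
  apply extend_smooth hc (hc.smooth.comp hF.contMDiff) contMDiff_id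
  intro v hv
  show j (F v) = j v
  rw [hoff v hv]

lemma FM_out {F : (Fin d → ℝ) → (Fin d → ℝ)} {m : M} (hm : m ∉ U) : FM j F m = m := by
  unfold FM
  rw [Function.extend_apply']
  · rfl
  · rintro ⟨v, rfl⟩
    exact hm (hc.sub ⟨v, rfl⟩)

lemma FM_left {F G : (Fin d → ℝ) → (Fin d → ℝ)} (h : ∀ v, G (F v) = v) (m : M) : FM j G (FM j F m) = m := by
  by_cases h1 : ∃ v, j v = m
  · obtain ⟨v, rfl⟩ := h1
    rw [FM_apply hc.emb, FM_apply hc.emb, h]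
  · have e : ∀ F : (Fin d → ℝ) → (Fin d → ℝ), FM j F m = m := by
      intro F
      unfold FM
      rw [Function.extend_apply' _ _ _ h1]; rfl
    rw [e, e]

lemma exists_diffeo (h : (Fin d → ℝ) ≃ₜ (Fin d → ℝ)) (h1 : ContDiff ℝ ∞ h) (h2 : ContDiff ℝ ∞ h.symm)
    (hoff : ∀ v, 1 ≤ ‖v‖ → h v = v) : ∃ g : Diffeomorph (𝓡 d) (𝓡 d) M M ∞, (g : M → M) = FM j h := by
  have hoff' : ∀ v, 1 ≤ ‖v‖ → h.symm v = v := by
    intro v hv
    rw [h.symm_apply_eq, hoff v hv]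
  exact ⟨⟨⟨FM j h, FM j h.symm, FM_left hc h.symm_apply_apply, FM_left hc h.apply_symm_apply⟩,
    FM_smooth hc h1 hoff, FM_smooth hc h2 hoff'⟩, rfl⟩

/-- the observable -/
lemma exists_smooth_obs (x : Fin d) : ∃ f : C^∞⟮𝓡 d, M; 𝓘(ℝ, ℝ), ℝ⟯, ∀ v : Fin d → ℝ, ‖v‖ ≤ 1 / 2 → f (j v) = v x := by
  have hs : ContDiff ℝ ∞ (fun v : Fin d → ℝ => v x * QQ v) := (contDiff_apply ℝ ℝ x).mul QQ_smooth
  have h1 : ContMDiff (𝓡 d) 𝓘(ℝ, ℝ) ∞ (Function.extend j (fun v : Fin d → ℝ => v x * QQ v) (fun _ => 0)) := by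
    apply extend_smooth hc hs.contMDiff contMDiff_const
    intro v hv
    rw [QQ_zero hv, mul_zero]
  refine ⟨⟨_, h1⟩, fun v hv => ?_⟩
  rw [ContMDiffMap.coeFn_mk, hc.emb.injective.extend_apply, QQ_one hv, mul_one]

omit hc in
lemma FM_iter (hc : Copy U j k) {F : (Fin d → ℝ) → (Fin d → ℝ)} (v : Fin d → ℝ) (n : ℕ) :
    (FM j F)^[n] (j v) = j (F^[n] v) := by
  induction n with
  | zero => rfl
  | succ n ih =>
    rw [Function.iterate_succ_apply', ih, FM_apply hc.emb, Function.iterate_succ_apply']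

end man

section main

variable {d : ℕ} {M : Type*} [MetricSpace M] [CompactSpace M] [ChartedSpace (EuclideanSpace ℝ (Fin d)) M]
  [IsManifold (𝓡 d) ∞ M] {U : Set M}

/-- the diffeomorphisms of a compact manifold suffice -/
theorem of_manifold_diffeos (hU : IsOpen U) (hUn : U.Nonempty) {κ : ℕ → ℕ → ℂ} (hκ : Good κ) {x y t : Fin d}
    (hxy : x ≠ y) (hxt : t ≠ x) (hyt : t ≠ y)
    (H : ∀ g : Diffeomorph (𝓡 d) (𝓡 d) M M ∞, (∀ m, m ∉ U → g m = m) → coverEntropy g Set.univ = 0 →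
      ∀ (f : C^∞⟮𝓡 d, M; 𝓘(ℝ, ℝ), ℝ⟯) (m : M), Tendsto (Av κ (fun n => ((f (g^[n] m) : ℝ) : ℂ))) atTop (𝓝 0))
    (b : ℕ → Bool) (hb : ZE b) : Tendsto (Av κ (ind b)) atTop (𝓝 0) := by
  obtain ⟨m0, hm0⟩ := hUn
  obtain ⟨j, k, hc⟩ := exists_copy (d := d) hU hm0
  obtain ⟨f, hf⟩ := exists_smooth_obs hc x
  apply approx_ind hκ (c := 1 / 8) (by norm_num)
  intro θ h0 h1
  have g0 : 0 < θ / 2 := by positivity
  have g1 : θ / 2 ≤ 1 / 5 := by linarith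
  obtain ⟨F, c, hc0, hc1, hF, hFs, hE, hpt⟩ := exists_smooth hxy hxt hyt hb g0 g1
  refine ⟨fun n => 1 / 8 * X (θ / 2) (sg^[n] (bt b)), approx_X g0 g1 b, ?_⟩
  have hball : ∀ v, ‖v‖ ≤ 1 → ‖F v‖ ≤ 1 := by
    intro v hv
    rcases lt_or_eq_of_le hv with h | h
    · exact (hF.ball h).le
    · rw [hF.off v h.ge]; exact hv
  obtain ⟨g, hg⟩ := exists_diffeo hc hF.homeo hFs (Hm_symm_smooth hF hFs) hF.off
  have hg' : (g : M → M) = FM j F := hg
  have h2 := H g (fun m hm => by rw [hg']; exact FM_out hc hm)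
    (by rw [hg']; exact ent_zero (FM_EZ hc.emb hF.off hball hE) ⟨m0, trivial⟩) f
    (j (Th x y c (θ / 2) (bt b)))
  refine scale_av (c := c) hc0 (h2.congr (fun N => ?_))
  congr 1
  funext n
  rw [hg', FM_iter hc, Th_orbit hpt, hf _ (Th_norm' g0 g1 hc0 hc1 x y _)]
  unfold Th
  rw [pt_x hxy]

/-- the smooth maps of a compact manifold suffice -/
theorem of_manifold_maps (hU : IsOpen U) (hUn : U.Nonempty) {κ : ℕ → ℕ → ℂ} (hκ : Good κ) {x t : Fin d}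
    (hxt : x ≠ t)
    (H : ∀ T : M → M, ContMDiff (𝓡 d) (𝓡 d) ∞ T → (∀ m, m ∉ U → T m = m) → coverEntropy T Set.univ = 0 →
      ∀ (f : C^∞⟮𝓡 d, M; 𝓘(ℝ, ℝ), ℝ⟯) (m : M), Tendsto (Av κ (fun n => ((f (T^[n] m) : ℝ) : ℂ))) atTop (𝓝 0))
    (b : ℕ → Bool) (hb : ZE b) : Tendsto (Av κ (ind b)) atTop (𝓝 0) := by
  obtain ⟨m0, hm0⟩ := hUn
  obtain ⟨j, k, hc⟩ := exists_copy (d := d) hU hm0
  obtain ⟨f, hf⟩ := exists_smooth_obs hc x
  apply approx_ind hκ (c := 1 / 8) (by norm_num)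
  intro θ h0 h1
  have g0 : 0 < θ / 2 := by positivity
  have g1 : θ / 2 ≤ 1 / 5 := by linarith
  obtain ⟨F, hFs, hoff, hball, hE, hpt⟩ := exists_smooth_map hxt hb g0 g1
  refine ⟨fun n => 1 / 8 * XA (θ / 2) (sg^[n] (bt b)), approx_map g0 g1 b, ?_⟩
  have h2 := H (FM j F) (FM_smooth hc hFs hoff) (fun m hm => FM_out hc hm)
    (ent_zero (FM_EZ hc.emb hoff hball hE) ⟨m0, trivial⟩) f
    (j (pt x t (θ / 2 / 8 * XA (θ / 2) (bt b)) 0))
  refine scale_av (c := θ / 2 / 8) (by positivity) (h2.congr (fun N => ?_))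
  congr 1
  funext n
  rw [FM_iter hc, map_orbit hpt, hf _ ((map_norm g0 g1 x t _).trans (by norm_num)), pt_x hxt]

end main

end Pool.Agent.Q127.SD
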